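import Mathlib
import Pool.Agent.U581.LB.Stm

/-!
# Project LB, package LIM: preparations
-/

set_option autoImplicit false

namespace Pool.Agent.U251.LB

open Real MeasureTheory Filter Topology ProbabilityTheory Pool.Agent.U581.BM Pool.Agent.U581.LB
open scoped BoundedContinuousFunction NNReal

/-- the number of lattice points -/
noncomputable def cnt (t : ℝ) : ℝ :=
  (Nat.card {p : ℤ × ℤ // (p.1 : ℝ) ^ 2 + (p.2 : ℝ) ^ 2 ≤ t} : ℝ)

theorem fin_pts (t : ℝ) : Finite {p : ℤ × ℤ // (p.1 : ℝ) ^ 2 + (p.2 : ℝ) ^ 2 ≤ t} := by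
  obtain ⟨n, hn⟩ := exists_nat_gt t
  have key : ∀ a b : ℤ, (a : ℝ) ^ 2 + (b : ℝ) ^ 2 ≤ t → -(n : ℤ) ≤ a ∧ a ≤ n := by
    intro a b h
    have h1 : (a : ℝ) ^ 2 < n := by nlinarith [sq_nonneg (b : ℝ)]
    have h2 : a ^ 2 < n := by exact_mod_cast h1
    have h3 := Int.le_self_sq a
    have h4 := Int.le_self_sq (-a)
    have h5 : (-a) ^ 2 = a ^ 2 := by ring
    constructor <;> omega
  have h : {p : ℤ × ℤ | (p.1 : ℝ) ^ 2 + (p.2 : ℝ) ^ 2 ≤ t} ⊆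
      ((Finset.Icc (-(n : ℤ)) n ×ˢ Finset.Icc (-(n : ℤ)) n : Finset (ℤ × ℤ)) : Set (ℤ × ℤ)) := by
    intro p hp
    have hp' : (p.1 : ℝ) ^ 2 + (p.2 : ℝ) ^ 2 ≤ t := hp
    have q1 := key p.1 p.2 hp'
    have q2 := key p.2 p.1 (by linarith)
    simp only [Finset.coe_product, Finset.coe_Icc, Set.mem_prod, Set.mem_Icc]
    exact ⟨q1, q2⟩
  exact ((Finset.finite_toSet _).subset h).to_subtype

theorem cnt_mono : Monotone cnt := by
  intro s t hst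
  unfold cnt
  have := fin_pts t
  have h := Nat.card_le_card_of_injective
    (fun p : {p : ℤ × ℤ // (p.1 : ℝ) ^ 2 + (p.2 : ℝ) ^ 2 ≤ s} =>
      (⟨p.1, p.2.trans hst⟩ : {p : ℤ × ℤ // (p.1 : ℝ) ^ 2 + (p.2 : ℝ) ^ 2 ≤ t}))
    (fun p q h => Subtype.ext (congrArg (fun x => x.1) h))
  exact_mod_cast h

theorem Pc_eq (R : ℝ) : Pc R = cnt (R ^ 2) - π * R ^ 2 := rfl

theorem Pc_meas : Measurable Pc := by
  have h : Measurable fun R : ℝ => cnt (R ^ 2) - π * R ^ 2 :=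
    (cnt_mono.measurable.comp (measurable_id.pow_const 2)).sub
      ((measurable_id.pow_const 2).const_mul π)
  exact h

theorem Pc_bdd {b R : ℝ} (h : |R| ≤ b) : |Pc R| ≤ cnt (b ^ 2) + π * b ^ 2 := by
  rw [Pc_eq]
  have h1 : R ^ 2 ≤ b ^ 2 := by
    rw [← sq_abs R]
    exact pow_le_pow_left₀ (abs_nonneg _) h 2
  have h2 := cnt_mono h1
  have h3 : 0 ≤ cnt (R ^ 2) := Nat.cast_nonneg _
  have h4 : π * R ^ 2 ≤ π * b ^ 2 := mul_le_mul_of_nonneg_left h1 pi_pos.le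
  have h5 : 0 ≤ π * R ^ 2 := by positivity
  rw [abs_le]
  constructor <;> linarith

theorem ptw {E : Type*} [NormedAddCommGroup E] [ProperSpace E] (G : E →ᵇ ℝ) {A η : ℝ}
    (hA : 0 < A) (hη : 0 < η) : ∃ D : ℝ, 0 ≤ D ∧ ∀ z z' : E,
      |G z - G z'| ≤ η + 2 * ‖G‖ / A ^ 2 * ‖z‖ ^ 2 + D * ‖z - z'‖ ^ 2 := by
  have hK : IsCompact (Metric.closedBall (0 : E) (A + 1)) := isCompact_closedBall _ _
  have hU := hK.uniformContinuousOn_of_continuous (f := fun z => G z) G.continuous.continuousOn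
  rw [Metric.uniformContinuousOn_iff] at hU
  obtain ⟨δ', hδ', H⟩ := hU η hη
  set δ := min δ' 1 with hδ
  have hδ0 : 0 < δ := lt_min hδ' one_pos
  have hδ1 : δ ≤ 1 := min_le_right _ _
  have hδ2 : δ ≤ δ' := min_le_left _ _
  have hG0 : 0 ≤ ‖G‖ := norm_nonneg G
  refine ⟨2 * ‖G‖ / δ ^ 2, by positivity, fun z z' => ?_⟩
  have hB : |G z - G z'| ≤ 2 * ‖G‖ := by
    have q1 := G.norm_coe_le_norm z
    have q2 := G.norm_coe_le_norm z'
    rw [Real.norm_eq_abs] at q1 q2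
    refine (abs_sub _ _).trans ?_
    linarith
  have n1 : 0 ≤ 2 * ‖G‖ / A ^ 2 * ‖z‖ ^ 2 := by positivity
  have n2 : 0 ≤ 2 * ‖G‖ / δ ^ 2 * ‖z - z'‖ ^ 2 := by positivity
  by_cases h1 : A < ‖z‖
  · have h2 : A ^ 2 ≤ ‖z‖ ^ 2 := pow_le_pow_left₀ hA.le h1.le 2
    have h3 : 2 * ‖G‖ ≤ 2 * ‖G‖ / A ^ 2 * ‖z‖ ^ 2 := by
      rw [div_mul_eq_mul_div, le_div_iff₀ (by positivity)]
      exact mul_le_mul_of_nonneg_left h2 (by positivity)
    linarith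
  by_cases h2 : δ ≤ ‖z - z'‖
  · have h2' : δ ^ 2 ≤ ‖z - z'‖ ^ 2 := pow_le_pow_left₀ hδ0.le h2 2
    have h3 : 2 * ‖G‖ ≤ 2 * ‖G‖ / δ ^ 2 * ‖z - z'‖ ^ 2 := by
      rw [div_mul_eq_mul_div, le_div_iff₀ (by positivity)]
      exact mul_le_mul_of_nonneg_left h2' (by positivity)
    linarith
  · push Not at h1 h2
    have m1 : z ∈ Metric.closedBall (0 : E) (A + 1) := by
      rw [mem_closedBall_zero_iff]
      linarith
    have m2 : z' ∈ Metric.closedBall (0 : E) (A + 1) := by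
      rw [mem_closedBall_zero_iff]
      have : ‖z'‖ ≤ ‖z‖ + ‖z - z'‖ := by
        have := norm_sub_le z (z - z')
        simpa using this
      linarith
    have h3 := H z m1 z' m2 (by rw [dist_eq_norm]; linarith)
    rw [Real.dist_eq] at h3
    linarith

end Pool.Agent.U251.LB
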