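import Mathlib
import Pool.Agent.U581.LB.Stm

/-!
# Project LB, package LIM: trigonometric identities
-/

set_option autoImplicit false

namespace Pool.Agent.U251.LB

open Real MeasureTheory Filter Topology ProbabilityTheory Pool.Agent.U581.BM Pool.Agent.U581.LB
open scoped BoundedContinuousFunction NNReal

theorem Yq_cont (c : ℕ → ℂ) (N q : ℕ) : Continuous (Yq c N q) := by
  unfold Yq
  refine continuous_finsetSum _ fun n _ => ?_
  refine Complex.continuous_re.comp ?_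
  fun_prop

theorem Yq_per (c : ℕ → ℂ) (N q : ℕ) (x : ℝ) : Yq c N q (x + 1) = Yq c N q x := by
  unfold Yq
  refine Finset.sum_congr rfl fun n _ => ?_
  congr 2
  have h : (((2 * π * (rt n * (x + 1)) : ℝ) : ℂ) * Complex.I) =
      (((2 * π * (rt n * x) : ℝ) : ℂ) * Complex.I) + (rt n : ℤ) * (2 * π * Complex.I) := by
    push_cast
    ring
  rw [h, Complex.exp_add, Complex.exp_int_mul_two_pi_mul_I, mul_one]

theorem sf_mem {N n : ℕ} (hn : n ∈ Finset.Icc 1 N) : sf n ∈ Finset.Icc 1 N := by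
  rw [Finset.mem_Icc] at hn ⊢
  have h := rt_sf n
  have h0 : sf n ≠ 0 := (sf_sqf n).ne_zero
  have h1 : 1 ≤ rt n := by
    rcases Nat.eq_zero_or_pos (rt n) with h2 | h2
    · rw [h2] at h
      omega
    · exact h2
  refine ⟨Nat.pos_of_ne_zero h0, ?_⟩
  calc sf n = 1 * sf n := (one_mul _).symm
    _ ≤ rt n ^ 2 * sf n := Nat.mul_le_mul_right _ (Nat.one_le_pow _ _ h1)
    _ = n := h
    _ ≤ N := hn.2

theorem sqrt_n (n : ℕ) : √(n : ℝ) = rt n * √(sf n : ℝ) := by
  have h : ((rt n : ℝ)) ^ 2 * (sf n : ℝ) = n := by exact_mod_cast rt_sf n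
  rw [← h, Real.sqrt_mul (by positivity), Real.sqrt_sq (by positivity)]

/-- the sum over the blocks -/
theorem sum_Yq (c : ℕ → ℂ) (N : ℕ) (R : ℝ) : ∑ q ∈ Finset.Icc 1 N, Yq c N q (√q * R) =
    ∑ n ∈ Finset.Icc 1 N, (c n * Complex.exp (((2 * π * (√n * R) : ℝ) : ℂ) * Complex.I)).re := by
  have h0 := Finset.sum_fiberwise_of_maps_to (s := Finset.Icc 1 N) (t := Finset.Icc 1 N) (g := sf)
    (fun n hn => sf_mem hn)
    (fun n => (c n * Complex.exp (((2 * π * (√n * R) : ℝ) : ℂ) * Complex.I)).re)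
  rw [← h0]
  refine Finset.sum_congr rfl fun q _ => ?_
  unfold Yq blk
  refine Finset.sum_congr rfl fun n hn => ?_
  have hq := (Finset.mem_filter.1 hn).2
  have e : (2 * π * (rt n * (√q * R)) : ℝ) = 2 * π * (√n * R) := by
    rw [sqrt_n n, hq]
    ring
  rw [e]

/-- linearity of `Y` -/
theorem Yq_lin {ι : Type*} (s : Finset ι) (t : ι → ℝ) (c : ι → ℕ → ℂ) (N q : ℕ) (x : ℝ) :
    Yq (fun n => ∑ i ∈ s, (t i : ℂ) * c i n) N q x = ∑ i ∈ s, t i * Yq (c i) N q x := by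
  unfold Yq
  simp_rw [Finset.mul_sum]
  rw [Finset.sum_comm]
  refine Finset.sum_congr rfl fun n _ => ?_
  rw [Finset.sum_mul, Complex.re_sum]
  refine Finset.sum_congr rfl fun i _ => ?_
  rw [mul_assoc, Complex.re_ofReal_mul]

theorem Y_lin {ι : Type*} (s : Finset ι) (t : ι → ℝ) (c : ι → ℕ → ℂ) (N : ℕ) (θ : ℕ → ℝ) :
    Y (fun n => ∑ i ∈ s, (t i : ℂ) * c i n) N θ = ∑ i ∈ s, t i * Y (c i) N θ := by
  unfold Y
  simp_rw [Finset.mul_sum]
  rw [Finset.sum_comm]
  exact Finset.sum_congr rfl fun q _ => Yq_lin s t c N q (θ q)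

/-- the increments of the truncated series -/
theorem UN_incr (ρ u : ℝ) (N : ℕ) (R : ℝ) : (UN N (R + ρ * u) - UN N R) / sg ρ =
    ∑ n ∈ Finset.Icc 1 N,
      (cc ρ u n * Complex.exp (((2 * π * (√n * R) : ℝ) : ℂ) * Complex.I)).re := by
  unfold UN
  rw [← Finset.sum_sub_distrib, Finset.sum_div]
  refine Finset.sum_congr rfl fun n _ => ?_
  unfold cc
  have e : ((cf n / sg ρ : ℝ) : ℂ) * Complex.exp (((-(3 * π / 4) : ℝ) : ℂ) * Complex.I) *
      (Complex.exp (((2 * π * (√n * (ρ * u)) : ℝ) : ℂ) * Complex.I) - 1) *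
      Complex.exp (((2 * π * (√n * R) : ℝ) : ℂ) * Complex.I) =
      ((cf n / sg ρ : ℝ) : ℂ) *
        (Complex.exp (((2 * π * ((R + ρ * u) * √n) - 3 * π / 4 : ℝ) : ℂ) * Complex.I) -
          Complex.exp (((2 * π * (R * √n) - 3 * π / 4 : ℝ) : ℂ) * Complex.I)) := by
    have e1 : Complex.exp (((2 * π * ((R + ρ * u) * √n) - 3 * π / 4 : ℝ) : ℂ) * Complex.I) =
        Complex.exp (((-(3 * π / 4) : ℝ) : ℂ) * Complex.I) *
        Complex.exp (((2 * π * (√n * (ρ * u)) : ℝ) : ℂ) * Complex.I) *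
        Complex.exp (((2 * π * (√n * R) : ℝ) : ℂ) * Complex.I) := by
      rw [← Complex.exp_add, ← Complex.exp_add]
      congr 1
      push_cast
      ring
    have e2 : Complex.exp (((2 * π * (R * √n) - 3 * π / 4 : ℝ) : ℂ) * Complex.I) =
        Complex.exp (((-(3 * π / 4) : ℝ) : ℂ) * Complex.I) *
        Complex.exp (((2 * π * (√n * R) : ℝ) : ℂ) * Complex.I) := by
      rw [← Complex.exp_add]
      congr 1
      push_cast
      ring
    rw [e1, e2]
    ring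
  rw [e, Complex.re_ofReal_mul, Complex.sub_re, Complex.exp_ofReal_mul_I_re,
    Complex.exp_ofReal_mul_I_re]
  ring

end Pool.Agent.U251.LB
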