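import Mathlib
import Pool.Agent.U251.LB.A
import Pool.Agent.U251.LB.B

/-!
# Project LB, package LIM: the limit for a fixed length
-/

set_option autoImplicit false

namespace Pool.Agent.U251.LB

open Real MeasureTheory Filter Topology ProbabilityTheory Pool.Agent.U581.BM Pool.Agent.U581.LB
open scoped BoundedContinuousFunction NNReal

/-- the space of the vectors of the values -/
abbrev EE (M : ℕ) := EuclideanSpace ℝ (Fin (M + 1))

/-- the vector of the first values of a sequence -/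
noncomputable def vec (M : ℕ) (c : ℕ → ℝ) : EE M := WithLp.toLp 2 fun i => c i

theorem polygon_vec (M : ℕ) (c : ℕ → ℝ) : polygon M (ext0 M (vec M c)) = polygon M c := by
  apply polygon_congr
  intro i hi
  unfold ext0 vec
  rw [dif_pos (by omega)]

theorem inner_vec (M : ℕ) (c : ℕ → ℝ) (θ : EE M) :
    inner ℝ (vec M c) θ = ∑ i ∈ Finset.range (M + 1), ext0 M θ i * c i := by
  rw [PiLp.inner_apply, ← Fin.sum_univ_eq_sum_range (fun i => ext0 M θ i * c i) (M + 1)]
  apply Finset.sum_congr rfl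
  intro i _
  have h1 : ext0 M θ i = θ i := by
    unfold ext0
    rw [dif_pos i.2]
  rw [h1]
  simp [vec]

theorem vec_meas {Ω : Type*} [MeasurableSpace Ω] (M : ℕ) {c : Ω → ℕ → ℝ}
    (h : ∀ i, Measurable fun ω => c ω i) : Measurable fun ω => vec M (c ω) :=
  (WithLp.measurable_toLp 2 _).comp (measurable_pi_lambda _ fun i => h i)

/-- the functional on vectors -/
noncomputable def GG (M : ℕ) (F : C(unitInterval, ℝ) →ᵇ ℝ) : EE M →ᵇ ℝ :=
  F.compContinuous ⟨fun z => polygon M (ext0 M z), polygon_cont M fun i => ext0_cont M i⟩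

theorem GG_vec (M : ℕ) (F : C(unitInterval, ℝ) →ᵇ ℝ) (c : ℕ → ℝ) :
    GG M F (vec M c) = F (polygon M c) := by
  show F (polygon M (ext0 M (vec M c))) = _
  rw [polygon_vec]

/-- the increments of the truncated series -/
noncomputable def wL (ρ : ℝ) (M N : ℕ) (R : ℝ) (i : ℕ) : ℝ :=
  (UN N (R + ρ * (i / M)) - UN N R) / sg ρ

theorem UN_cont (N : ℕ) : Continuous (UN N) := by
  unfold UN
  fun_prop

theorem wL_cont (ρ : ℝ) (M N i : ℕ) : Continuous fun R => wL ρ M N R i := by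
  unfold wL
  have := UN_cont N
  fun_prop

/-- the character of the increments -/
theorem char_wL (ρ : ℝ) (M N : ℕ) (t : ℕ → ℝ) (R : ℝ) :
    ∑ i ∈ Finset.range (M + 1), t i * wL ρ M N R i =
      ∑ q ∈ Finset.Icc 1 N,
        Yq (fun n => ∑ i ∈ Finset.range (M + 1), (t i : ℂ) * cc ρ (i / M) n) N q (√q * R) := by
  simp_rw [Yq_lin]
  rw [Finset.sum_comm]
  refine Finset.sum_congr rfl fun i _ => ?_
  rw [← Finset.mul_sum, sum_Yq, ← UN_incr]
  rfl

theorem char_lim (hKW : S_KW) (hF : S_FOUR) {P : ℕ → Measure ℝ} (hP : ∀ k, IsProbabilityMeasure (P k))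
    (hch : ∀ θ : ℝ, θ ≠ 0 →
      Tendsto (fun k => ∫ x, Complex.exp (((θ * x : ℝ) : ℂ) * Complex.I) ∂(P k)) atTop (𝓝 0))
    (ρ : ℝ) (M N : ℕ) (t : ℕ → ℝ) :
    Tendsto (fun k => ∫ R, Complex.exp (((∑ i ∈ Finset.range (M + 1), t i * wL ρ M N R i : ℝ) : ℂ) *
      Complex.I) ∂(P k)) atTop
      (𝓝 (∫ θ, Complex.exp (((∑ i ∈ Finset.range (M + 1), t i * Y (cc ρ (i / M)) N θ : ℝ) : ℂ) *
      Complex.I) ∂Th)) := by
  set c : ℕ → ℂ := fun n => ∑ i ∈ Finset.range (M + 1), (t i : ℂ) * cc ρ (i / M) n with hc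
  have e1 : ∀ θ, ∑ i ∈ Finset.range (M + 1), t i * Y (cc ρ (i / M)) N θ = Y c N θ := by
    intro θ
    rw [hc, Y_lin]
  simp_rw [e1]
  rw [(hF c N).2.1]
  set S : Finset ℕ := (Finset.Icc 1 N).filter Squarefree with hS
  have hempty : ∀ q, ¬ Squarefree q → ∀ x, Yq c N q x = 0 := by
    intro q hq x
    unfold Yq blk
    apply Finset.sum_eq_zero
    intro n hn
    exfalso
    apply hq
    rw [← (Finset.mem_filter.1 hn).2]
    exact sf_sqf n
  have e2 : ∏ q ∈ Finset.Icc 1 N, ∫ x in (0 : ℝ)..1, Complex.exp (((Yq c N q x : ℝ) : ℂ) * Complex.I) =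
      ∏ q ∈ S, ∫ x in (0 : ℝ)..1, Complex.exp (((Yq c N q x : ℝ) : ℂ) * Complex.I) := by
    rw [hS]
    symm
    apply Finset.prod_filter_of_ne
    intro q _ hne
    by_contra hq
    apply hne
    simp [hempty q hq]
  have e3 : ∀ R : ℝ, Complex.exp (((∑ i ∈ Finset.range (M + 1), t i * wL ρ M N R i : ℝ) : ℂ) *
      Complex.I) = ∏ q ∈ S, Complex.exp (((Yq c N q (√q * R) : ℝ) : ℂ) * Complex.I) := by
    intro R
    rw [char_wL, ← hc]
    rw [← Complex.exp_sum]
    congr 1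
    rw [← Finset.sum_mul]
    congr 1
    rw [← Complex.ofReal_sum]
    congr 1
    rw [hS]
    symm
    apply Finset.sum_filter_of_ne
    intro q _ hne
    by_contra hq
    exact hne (hempty q hq _)
  simp_rw [e3]
  rw [e2]
  refine hKW P hP hch S (fun q hq => (Finset.mem_filter.1 hq).2)
    (fun q x => Complex.exp (((Yq c N q x : ℝ) : ℂ) * Complex.I)) (fun q => ?_) (fun q x => ?_)
  · have := Yq_cont c N q
    fun_prop
  · simp only [Yq_per]

theorem lim_fixed (hKW : S_KW) (hF : S_FOUR) {P : ℕ → Measure ℝ}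
    (hP : ∀ k, IsProbabilityMeasure (P k))
    (hch : ∀ θ : ℝ, θ ≠ 0 →
      Tendsto (fun k => ∫ x, Complex.exp (((θ * x : ℝ) : ℂ) * Complex.I) ∂(P k)) atTop (𝓝 0))
    (ρ : ℝ) (M N : ℕ) (F : C(unitInterval, ℝ) →ᵇ ℝ) :
    Tendsto (fun k => ∫ R, GG M F (vec M (wL ρ M N R)) ∂(P k)) atTop
      (𝓝 (∫ θ, F (pathT ρ M N θ) ∂Th)) := by
  have hV : Measurable fun R : ℝ => vec M (wL ρ M N R) :=
    vec_meas M fun i => (wL_cont ρ M N i).measurable
  have hT : Measurable fun θ : ℕ → ℝ => vec M (fun i => Y (cc ρ (i / M)) N θ) :=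
    vec_meas M fun i => (hF _ N).1
  let μ : ℕ → ProbabilityMeasure (EE M) := fun k =>
    ⟨(P k).map (fun R => vec M (wL ρ M N R)), Measure.isProbabilityMeasure_map hV.aemeasurable⟩
  let μ₀ : ProbabilityMeasure (EE M) :=
    ⟨Th.map (fun θ : ℕ → ℝ => vec M (fun i => Y (cc ρ (i / M)) N θ)),
      Measure.isProbabilityMeasure_map hT.aemeasurable⟩
  have hconv : Tendsto μ atTop (𝓝 μ₀) := by
    refine ProbabilityMeasure.tendsto_iff_tendsto_charFun.2 fun θ => ?_
    have e1 : ∀ k, charFun ((μ k : ProbabilityMeasure _) : Measure _) θ =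
        ∫ R, Complex.exp (((∑ i ∈ Finset.range (M + 1),
          ext0 M θ i * wL ρ M N R i : ℝ) : ℂ) * Complex.I) ∂(P k) := by
      intro k
      show charFun ((P k).map (fun R => vec M (wL ρ M N R))) θ = _
      rw [charFun_apply, integral_map hV.aemeasurable (by fun_prop)]
      simp_rw [inner_vec]
    have e2 : charFun ((μ₀ : ProbabilityMeasure _) : Measure _) θ =
        ∫ ω, Complex.exp (((∑ i ∈ Finset.range (M + 1),
          ext0 M θ i * Y (cc ρ (i / M)) N ω : ℝ) : ℂ) * Complex.I) ∂Th := by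
      show charFun (Th.map (fun θ : ℕ → ℝ => vec M (fun i => Y (cc ρ (i / M)) N θ))) θ = _
      rw [charFun_apply, integral_map hT.aemeasurable (by fun_prop)]
      simp_rw [inner_vec]
    simp_rw [e1]
    rw [e2]
    exact char_lim hKW hF hP hch ρ M N _
  rw [ProbabilityMeasure.tendsto_iff_forall_integral_tendsto] at hconv
  have h2 := hconv (GG M F)
  have e3 : ∀ k, ∫ z, GG M F z ∂(μ k : Measure _) = ∫ R, GG M F (vec M (wL ρ M N R)) ∂(P k) := by
    intro k
    show ∫ z, GG M F z ∂((P k).map (fun R => vec M (wL ρ M N R))) = _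
    rw [integral_map hV.aemeasurable (GG M F).continuous.aestronglyMeasurable]
  have e4 : ∫ z, GG M F z ∂(μ₀ : Measure _) = ∫ θ, F (pathT ρ M N θ) ∂Th := by
    show ∫ z, GG M F z ∂(Th.map (fun θ : ℕ → ℝ => vec M (fun i => Y (cc ρ (i / M)) N θ))) = _
    rw [integral_map hT.aemeasurable (GG M F).continuous.aestronglyMeasurable]
    simp_rw [GG_vec]
    rfl
  simp_rw [e3] at h2
  rw [e4] at h2
  exact h2

/-- the characters of the dilated measures tend to zero -/
theorem adm_char {c₁ c₂ K s : ℝ} (hs : 1 / 3 < s) {T : ℕ → ℝ} (hT : ∀ k : ℕ, (k : ℝ) + 1 ≤ T k)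
    {μ : ℕ → Measure ℝ} (hμ : ∀ k, AdmL c₁ c₂ K s (T k) (μ k)) (θ : ℝ) (h0 : θ ≠ 0) :
    Tendsto (fun k => ∫ x, Complex.exp (((θ * x : ℝ) : ℂ) * Complex.I)
      ∂((μ k).map fun x => T k * x)) atTop (𝓝 0) := by
  have hTpos : ∀ k, 0 < T k := fun k => by
    have := hT k
    have h1 : (0 : ℝ) ≤ k := Nat.cast_nonneg k
    linarith
  have hTt : Tendsto T atTop atTop :=
    tendsto_atTop_mono (fun k => (by linarith [hT k] : (k : ℝ) ≤ T k)) tendsto_natCast_atTop_atTop
  have hlim2 : Tendsto (fun k => |K| * (|θ| ^ (-s) * (T k) ^ (-s))) atTop (𝓝 0) := by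
    have e1 := ((tendsto_rpow_neg_atTop (show (0 : ℝ) < s by linarith)).comp hTt).const_mul
      (|θ| ^ (-s))
    have e2 := e1.const_mul |K|
    simpa using e2
  apply squeeze_zero_norm' _ hlim2
  have hθ0 : 0 < |θ| := abs_pos.2 h0
  filter_upwards [hTt.eventually_ge_atTop |θ|,
    ((tendsto_rpow_atTop (show (0 : ℝ) < 9 / 10 by norm_num)).comp hTt).eventually_ge_atTop |θ|⁻¹]
    with k hk hk2
  have e1 : ∫ x, Complex.exp (((θ * x : ℝ) : ℂ) * Complex.I) ∂((μ k).map fun x => T k * x) =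
      ∫ x, Complex.exp (((θ * T k * x : ℝ) : ℂ) * Complex.I) ∂(μ k) := by
    rw [integral_map (measurable_const_mul (T k)).aemeasurable
      (by fun_prop : Continuous fun x : ℝ => Complex.exp (((θ * x : ℝ) : ℂ) * Complex.I)).aestronglyMeasurable]
    congr 1
    funext x
    congr 3
    ring
  rw [e1]
  have hθT : |θ * T k| = |θ| * T k := by rw [abs_mul, abs_of_pos (hTpos k)]
  have e2 := (hμ k).dec (θ * T k) (by
    rw [hθT]
    have e3 : T k = (T k) ^ (9 / 10 : ℝ) * (T k) ^ (1 / 10 : ℝ) := by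
      rw [← Real.rpow_add (hTpos k)]
      norm_num
    have e4 : 1 ≤ |θ| * (T k) ^ (9 / 10 : ℝ) := by
      have := mul_le_mul_of_nonneg_left hk2 hθ0.le
      rwa [mul_inv_cancel₀ hθ0.ne'] at this
    calc (T k) ^ (1 / 10 : ℝ) = 1 * (T k) ^ (1 / 10 : ℝ) := (one_mul _).symm
      _ ≤ (|θ| * (T k) ^ (9 / 10 : ℝ)) * (T k) ^ (1 / 10 : ℝ) :=
        mul_le_mul_of_nonneg_right e4 (by have := hTpos k; positivity)
      _ = |θ| * T k := by rw [mul_assoc, ← e3]) (by
    rw [hθT, pow_two]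
    exact mul_le_mul_of_nonneg_right hk (hTpos k).le)
  rw [hθT, Real.mul_rpow (abs_nonneg _) (hTpos k).le] at e2
  refine e2.trans ?_
  have h1 : 0 ≤ |θ| ^ (-s) * (T k) ^ (-s) := by
    have := hTpos k
    positivity
  exact mul_le_mul_of_nonneg_right (le_abs_self K) h1

/-- **the limit for a fixed length, uniformly in the measures** -/
theorem step2 (hKW : S_KW) (hF : S_FOUR) {c₁ c₂ K s : ℝ} (hs : 1 / 3 < s) (ρ : ℝ) (M N : ℕ)
    (F : C(unitInterval, ℝ) →ᵇ ℝ) {ε : ℝ} (hε : 0 < ε) : ∃ T₀ : ℝ, ∀ T : ℝ, T₀ ≤ T →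
    ∀ μ : Measure ℝ, AdmL c₁ c₂ K s T μ →
    |∫ x, GG M F (vec M (wL ρ M N (T * x))) ∂μ - ∫ θ, F (pathT ρ M N θ) ∂Th| ≤ ε := by
  by_contra hcon
  push Not at hcon
  choose T hT μ hμ hbad using fun k : ℕ => hcon ((k : ℝ) + 1)
  have hP : ∀ k, IsProbabilityMeasure ((μ k).map fun x => T k * x) := by
    intro k
    have := (hμ k).prob
    exact Measure.isProbabilityMeasure_map (measurable_const_mul (T k)).aemeasurable
  have h1 := lim_fixed hKW hF hP (adm_char hs hT hμ) ρ M N F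
  rw [Metric.tendsto_atTop] at h1
  obtain ⟨k₀, hk₀⟩ := h1 ε hε
  have h2 := hk₀ k₀ le_rfl
  have hV : Measurable fun R : ℝ => vec M (wL ρ M N R) :=
    vec_meas M fun i => (wL_cont ρ M N i).measurable
  have hg : Measurable fun R : ℝ => GG M F (vec M (wL ρ M N R)) :=
    (GG M F).continuous.measurable.comp hV
  rw [integral_map (measurable_const_mul (T k₀)).aemeasurable hg.aestronglyMeasurable,
    Real.dist_eq] at h2
  exact absurd h2 (not_lt.2 (hbad k₀).le)

end Pool.Agent.U251.LB
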