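import Mathlib
import Pool.Agent.U251.LB.C

/-!
# Project LB, package LIM: from the radii to the torus
-/

set_option autoImplicit false

namespace Pool.Agent.U251.LB

open Real MeasureTheory Filter Topology ProbabilityTheory Pool.Agent.U581.BM Pool.Agent.U581.LB
open scoped BoundedContinuousFunction NNReal

/-- the increments of the error term -/
noncomputable def zP (ρ : ℝ) (M : ℕ) (R : ℝ) (i : ℕ) : ℝ :=
  (Pc (R + ρ * (i / M)) - Pc R) / (√R * sg ρ)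

/-- the difference of the error term and the truncated series -/
noncomputable def Dh (N : ℕ) (T h x : ℝ) : ℝ := Pc (T * x + h) / √(T * x) - UN N (T * x + h)

/-- the bound of the squared distance -/
noncomputable def QQ (ρ : ℝ) (M N : ℕ) (T x : ℝ) : ℝ :=
  ∑ i ∈ Finset.range (M + 1), 2 / sg ρ ^ 2 * (Dh N T (ρ * (i / M)) x ^ 2 + Dh N T 0 x ^ 2)

/-- the bound of the truncated series -/
noncomputable def UB (N : ℕ) : ℝ := ∑ n ∈ Finset.Icc 1 N, |cf n|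

theorem UB_nonneg (N : ℕ) : 0 ≤ UB N := Finset.sum_nonneg fun _ _ => abs_nonneg _

theorem UN_le (N : ℕ) (R : ℝ) : |UN N R| ≤ UB N := by
  unfold UN UB
  refine (Finset.abs_sum_le_sum_abs _ _).trans (Finset.sum_le_sum fun n _ => ?_)
  rw [abs_mul]
  calc |cf n| * |cos (2 * π * (R * √n) - 3 * π / 4)| ≤ |cf n| * 1 :=
        mul_le_mul_of_nonneg_left (Real.abs_cos_le_one _) (abs_nonneg _)
    _ = |cf n| := mul_one _

theorem sg_pos {ρ : ℝ} (h0 : 0 < ρ) (h1 : ρ < 1) : 0 < sg ρ := by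
  unfold sg
  have h2 : 0 < log (1 / ρ) := Real.log_pos (by rw [lt_div_iff₀ h0]; linarith)
  have h3 : 0 < √(ρ * log (1 / ρ)) := Real.sqrt_pos.2 (mul_pos h0 h2)
  positivity

theorem norm_vec_sq (M : ℕ) (a : ℕ → ℝ) :
    ‖vec M a‖ ^ 2 = ∑ i ∈ Finset.range (M + 1), a i ^ 2 := by
  rw [EuclideanSpace.norm_sq_eq, ← Fin.sum_univ_eq_sum_range (fun i => a i ^ 2) (M + 1)]
  refine Finset.sum_congr rfl fun i _ => ?_
  simp [vec]

theorem vec_sub (M : ℕ) (a b : ℕ → ℝ) : vec M a - vec M b = vec M fun i => a i - b i := by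
  ext i
  simp [vec]

theorem zw (ρ : ℝ) (M N : ℕ) (T x : ℝ) (i : ℕ) : zP ρ M (T * x) i - wL ρ M N (T * x) i =
    (Dh N T (ρ * (i / M)) x - Dh N T 0 x) / sg ρ := by
  unfold zP wL Dh
  rw [div_mul_eq_div_div, add_zero]
  ring

theorem dist_le (ρ : ℝ) (M N : ℕ) (T x : ℝ) :
    ‖vec M (zP ρ M (T * x)) - vec M (wL ρ M N (T * x))‖ ^ 2 ≤ QQ ρ M N T x := by
  rw [vec_sub, norm_vec_sq]
  unfold QQ
  refine Finset.sum_le_sum fun i _ => ?_
  rw [zw, div_pow, div_mul_eq_mul_div]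
  apply div_le_div_of_nonneg_right _ (sq_nonneg _)
  nlinarith [sq_nonneg (Dh N T (ρ * (i / M)) x + Dh N T 0 x)]

theorem w_le {ρ : ℝ} (h0 : 0 < ρ) (h1 : ρ < 1) (M N : ℕ) (R : ℝ) :
    ‖vec M (wL ρ M N R)‖ ^ 2 ≤ (M + 1) * (2 * UB N / sg ρ) ^ 2 := by
  have hs := sg_pos h0 h1
  rw [norm_vec_sq]
  have h : ∀ i ∈ Finset.range (M + 1), wL ρ M N R i ^ 2 ≤ (2 * UB N / sg ρ) ^ 2 := by
    intro i _
    unfold wL
    have e1 : |(UN N (R + ρ * (i / M)) - UN N R) / sg ρ| ≤ 2 * UB N / sg ρ := by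
      rw [abs_div, abs_of_pos hs]
      apply div_le_div_of_nonneg_right _ hs.le
      refine (abs_sub _ _).trans ?_
      have := UN_le N (R + ρ * (i / M))
      have := UN_le N R
      linarith
    rw [← sq_abs]
    exact pow_le_pow_left₀ (abs_nonneg _) e1 2
  refine (Finset.sum_le_sum h).trans ?_
  rw [Finset.sum_const, Finset.card_range, nsmul_eq_mul]
  push_cast
  exact le_rfl

theorem Dh_meas (N : ℕ) (T h : ℝ) : Measurable (Dh N T h) := by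
  unfold Dh
  refine Measurable.sub ?_ ?_
  · exact (Pc_meas.comp ((measurable_id.const_mul T).add_const h)).div
      (Real.continuous_sqrt.measurable.comp (measurable_id.const_mul T))
  · exact (UN_cont N).measurable.comp ((measurable_id.const_mul T).add_const h)

theorem Dh_int {c₁ c₂ K s T : ℝ} (hc : 0 < c₁) (hT : 0 < T) {μ : Measure ℝ}
    (hμ : AdmL c₁ c₂ K s T μ) (N : ℕ) (h : ℝ) : Integrable (fun x => Dh N T h x ^ 2) μ := by
  have := hμ.prob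
  obtain ⟨b, hb⟩ : ∃ b : ℝ, b = T * c₂ + |h| := ⟨_, rfl⟩
  obtain ⟨C, hC⟩ : ∃ C : ℝ, C = (cnt (b ^ 2) + π * b ^ 2) / √(T * c₁) + UB N := ⟨_, rfl⟩
  refine Integrable.of_bound ((Dh_meas N T h).pow_const 2).aestronglyMeasurable (C ^ 2) ?_
  filter_upwards [hμ.supp] with x hx
  have hx0 : 0 < x := lt_of_lt_of_le hc hx.1
  have h1 : |T * x + h| ≤ b := by
    rw [hb]
    refine (abs_add_le _ _).trans ?_
    rw [abs_of_pos (mul_pos hT hx0)]
    have := mul_le_mul_of_nonneg_left hx.2 hT.le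
    linarith
  have h2 := Pc_bdd h1
  have h3 : 0 < √(T * c₁) := Real.sqrt_pos.2 (mul_pos hT hc)
  have h4 : √(T * c₁) ≤ √(T * x) := Real.sqrt_le_sqrt (mul_le_mul_of_nonneg_left hx.1 hT.le)
  have h5 : |Dh N T h x| ≤ C := by
    unfold Dh
    rw [hC]
    refine (abs_sub _ _).trans (add_le_add ?_ (UN_le _ _))
    rw [abs_div, abs_of_pos (h3.trans_le h4)]
    exact div_le_div₀ ((abs_nonneg _).trans h2) h2 h3 h4
  rw [Real.norm_eq_abs, abs_pow]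
  exact pow_le_pow_left₀ (abs_nonneg _) h5 2

theorem QQ_int {c₁ c₂ K s T : ℝ} (hc : 0 < c₁) (hT : 0 < T) {μ : Measure ℝ}
    (hμ : AdmL c₁ c₂ K s T μ) (ρ : ℝ) (M N : ℕ) : Integrable (fun x => QQ ρ M N T x) μ := by
  unfold QQ
  refine integrable_finsetSum _ fun i _ => ?_
  exact ((Dh_int hc hT hμ N _).add (Dh_int hc hT hμ N _)).const_mul _

theorem QQ_lim (hMS : S_MS) {c₁ c₂ K s : ℝ} (hc : 0 < c₁) (hs : 1 / 3 < s) {ρ : ℝ} (h0 : 0 < ρ)
    (h1 : ρ < 1) (M : ℕ) {κ : ℝ} (hκ : 0 < κ) : ∀ᶠ L : ℕ in atTop, ∀ᶠ T : ℝ in atTop,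
      ∀ μ : Measure ℝ, AdmL c₁ c₂ K s T μ → ∫ x, QQ ρ M (L ^ 2) T x ∂μ ≤ κ := by
  have hsg := sg_pos h0 h1
  set κ' : ℝ := κ / ((M + 1) * (4 / sg ρ ^ 2)) with hκ'
  have hκ0 : 0 < κ' := by positivity
  have a1 : ∀ h : ℝ, 0 ≤ h → ∀ᶠ L : ℕ in atTop, ∀ᶠ T : ℝ in atTop,
      ∀ μ : Measure ℝ, AdmL c₁ c₂ K s T μ → ∫ x, Dh (L ^ 2) T h x ^ 2 ∂μ ≤ κ' := by
    intro h hh
    obtain ⟨L₀, hL₀⟩ := hMS c₁ c₂ K s hc hs h hh κ' hκ0
    refine eventually_atTop.2 ⟨L₀, fun L hL => ?_⟩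
    obtain ⟨T₀, hT₀⟩ := hL₀ L hL
    exact eventually_atTop.2 ⟨T₀, fun T hT => hT₀ T hT⟩
  have a2 : ∀ i ∈ Finset.range (M + 1), ∀ᶠ L : ℕ in atTop, ∀ᶠ T : ℝ in atTop,
      ∀ μ : Measure ℝ, AdmL c₁ c₂ K s T μ → ∫ x, Dh (L ^ 2) T (ρ * (i / M)) x ^ 2 ∂μ ≤ κ' :=
    fun i _ => a1 _ (by positivity)
  filter_upwards [(eventually_all_finset _).2 a2, a1 0 le_rfl] with L b1 b2
  filter_upwards [(eventually_all_finset _).2 b1, b2, eventually_gt_atTop 0] with T d1 d2 hT μ hμ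
  have i1 : ∀ i ∈ Finset.range (M + 1), Integrable (fun x => 2 / sg ρ ^ 2 *
      (Dh (L ^ 2) T (ρ * (i / M)) x ^ 2 + Dh (L ^ 2) T 0 x ^ 2)) μ := fun i _ =>
    ((Dh_int hc hT hμ _ _).add (Dh_int hc hT hμ _ _)).const_mul _
  unfold QQ
  rw [integral_finsetSum _ i1]
  have e1 : ∀ i ∈ Finset.range (M + 1), ∫ x, 2 / sg ρ ^ 2 *
      (Dh (L ^ 2) T (ρ * (i / M)) x ^ 2 + Dh (L ^ 2) T 0 x ^ 2) ∂μ ≤ 4 / sg ρ ^ 2 * κ' := by
    intro i hi
    rw [integral_const_mul, integral_add (Dh_int hc hT hμ _ _) (Dh_int hc hT hμ _ _)]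
    have q1 := d1 i hi μ hμ
    have q2 := d2 μ hμ
    have q3 : 0 ≤ 2 / sg ρ ^ 2 := by positivity
    have q4 := mul_le_mul_of_nonneg_left (add_le_add q1 q2) q3
    refine q4.trans (le_of_eq ?_)
    ring
  refine (Finset.sum_le_sum e1).trans (le_of_eq ?_)
  rw [Finset.sum_const, Finset.card_range, nsmul_eq_mul, hκ']
  push_cast
  field_simp

theorem zP_meas (ρ : ℝ) (M i : ℕ) : Measurable fun R => zP ρ M R i := by
  unfold zP
  exact ((Pc_meas.comp (measurable_id.add_const _)).sub Pc_meas).div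
    ((Real.continuous_sqrt.measurable).mul_const _)

theorem step1 (hMS : S_MS) {c₁ c₂ K s : ℝ} (hc : 0 < c₁) (hs : 1 / 3 < s) {ρ : ℝ} (h0 : 0 < ρ)
    (h1 : ρ < 1) (M : ℕ) (F : C(unitInterval, ℝ) →ᵇ ℝ) {ε : ℝ} (hε : 0 < ε) :
    ∀ᶠ L : ℕ in atTop, ∀ᶠ T : ℝ in atTop, ∀ μ : Measure ℝ, AdmL c₁ c₂ K s T μ →
      |∫ x, F (pathR ρ M (T * x)) ∂μ - ∫ x, GG M F (vec M (wL ρ M (L ^ 2) (T * x))) ∂μ| ≤ ε := by
  have hG0 : 0 ≤ ‖GG M F‖ := norm_nonneg _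
  -- the uniform bound of the second moments
  obtain ⟨L₁, hL₁⟩ := (QQ_lim (c₂ := c₂) (K := K) hMS hc hs h0 h1 M one_pos).exists
  obtain ⟨B, hB⟩ : ∃ B : ℝ, B = (M + 1) * (2 * UB (L₁ ^ 2) / sg ρ) ^ 2 := ⟨_, rfl⟩
  have hB0 : 0 ≤ B := by rw [hB]; positivity
  obtain ⟨A, hA⟩ : ∃ A : ℝ, A = √(6 * (‖GG M F‖ + 1) * (2 + 2 * B) / ε) := ⟨_, rfl⟩
  have hA0 : 0 < A := by rw [hA]; positivity
  have hA2 : 2 * ‖GG M F‖ / A ^ 2 * (2 + 2 * B) ≤ ε / 3 := by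
    rw [hA, Real.sq_sqrt (by positivity), div_div_eq_mul_div, div_mul_eq_mul_div,
      div_le_div_iff₀ (by positivity) (by norm_num)]
    have : 0 ≤ ε * (2 + 2 * B) := by positivity
    nlinarith
  obtain ⟨D, hD0, hD⟩ := ptw (GG M F) hA0 (show 0 < ε / 3 by positivity)
  filter_upwards [QQ_lim (c₂ := c₂) (K := K) hMS hc hs h0 h1 M
    (show 0 < ε / (3 * (D + 1)) by positivity)] with L hL
  filter_upwards [hL, hL₁, eventually_gt_atTop 0] with T d1 d2 hT μ hμ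
  have := hμ.prob
  have q1 := d1 μ hμ
  have q2 := d2 μ hμ
  have g1 : Measurable fun x : ℝ => GG M F (vec M (zP ρ M (T * x))) :=
    (GG M F).continuous.measurable.comp
      (vec_meas M fun i => (zP_meas ρ M i).comp (measurable_const_mul T))
  have g2 : Measurable fun x : ℝ => GG M F (vec M (wL ρ M (L ^ 2) (T * x))) :=
    (GG M F).continuous.measurable.comp
      (vec_meas M fun i => (wL_cont ρ M (L ^ 2) i).measurable.comp (measurable_const_mul T))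
  have i1 : Integrable (fun x : ℝ => GG M F (vec M (zP ρ M (T * x)))) μ :=
    Integrable.of_bound g1.aestronglyMeasurable ‖GG M F‖
      (Eventually.of_forall fun x => (GG M F).norm_coe_le_norm _)
  have i2 : Integrable (fun x : ℝ => GG M F (vec M (wL ρ M (L ^ 2) (T * x)))) μ :=
    Integrable.of_bound g2.aestronglyMeasurable ‖GG M F‖
      (Eventually.of_forall fun x => (GG M F).norm_coe_le_norm _)
  have e1 : ∀ x, F (pathR ρ M (T * x)) = GG M F (vec M (zP ρ M (T * x))) := by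
    intro x
    rw [GG_vec]
    rfl
  simp_rw [e1]
  rw [← integral_sub i1 i2]
  have hQ := QQ_int hc hT hμ ρ M (L ^ 2)
  have hQ1 := QQ_int hc hT hμ ρ M (L₁ ^ 2)
  have hb : ∀ x, |GG M F (vec M (zP ρ M (T * x))) - GG M F (vec M (wL ρ M (L ^ 2) (T * x)))| ≤
      (ε / 3 + 2 * ‖GG M F‖ / A ^ 2 * (2 * QQ ρ M (L₁ ^ 2) T x + 2 * B)) +
        D * QQ ρ M (L ^ 2) T x := by
    intro x
    refine (hD _ _).trans ?_
    have r1 := dist_le ρ M (L ^ 2) T x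
    have r2 := dist_le ρ M (L₁ ^ 2) T x
    have r3 := w_le h0 h1 M (L₁ ^ 2) (T * x)
    rw [← hB] at r3
    have r4 : ‖vec M (zP ρ M (T * x))‖ ^ 2 ≤ 2 * QQ ρ M (L₁ ^ 2) T x + 2 * B := by
      have s1 : ‖vec M (zP ρ M (T * x))‖ ≤
          ‖vec M (zP ρ M (T * x)) - vec M (wL ρ M (L₁ ^ 2) (T * x))‖ +
          ‖vec M (wL ρ M (L₁ ^ 2) (T * x))‖ := by
        have := norm_add_le (vec M (zP ρ M (T * x)) - vec M (wL ρ M (L₁ ^ 2) (T * x)))
          (vec M (wL ρ M (L₁ ^ 2) (T * x)))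
        simpa using this
      have s2 := pow_le_pow_left₀ (norm_nonneg _) s1 2
      nlinarith [sq_nonneg (‖vec M (zP ρ M (T * x)) - vec M (wL ρ M (L₁ ^ 2) (T * x))‖ -
        ‖vec M (wL ρ M (L₁ ^ 2) (T * x))‖)]
    have n1 : 0 ≤ 2 * ‖GG M F‖ / A ^ 2 := by positivity
    have t1 := mul_le_mul_of_nonneg_left r4 n1
    have t2 := mul_le_mul_of_nonneg_left r1 hD0
    linarith
  have j3 : Integrable (fun x => 2 * QQ ρ M (L₁ ^ 2) T x) μ := hQ1.const_mul 2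
  have j4 : Integrable (fun x => 2 * QQ ρ M (L₁ ^ 2) T x + 2 * B) μ := j3.add (integrable_const _)
  have j5 : Integrable (fun x => 2 * ‖GG M F‖ / A ^ 2 * (2 * QQ ρ M (L₁ ^ 2) T x + 2 * B)) μ :=
    j4.const_mul _
  have j1 : Integrable (fun x => (ε / 3 + 2 * ‖GG M F‖ / A ^ 2 *
      (2 * QQ ρ M (L₁ ^ 2) T x + 2 * B))) μ :=
    (integrable_const _).add j5
  have j2 : Integrable (fun x => D * QQ ρ M (L ^ 2) T x) μ := hQ.const_mul _
  calc |∫ x, (GG M F (vec M (zP ρ M (T * x))) - GG M F (vec M (wL ρ M (L ^ 2) (T * x)))) ∂μ|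
      ≤ ∫ x, |GG M F (vec M (zP ρ M (T * x))) - GG M F (vec M (wL ρ M (L ^ 2) (T * x)))| ∂μ :=
        abs_integral_le_integral_abs
    _ ≤ ∫ x, ((ε / 3 + 2 * ‖GG M F‖ / A ^ 2 * (2 * QQ ρ M (L₁ ^ 2) T x + 2 * B)) +
        D * QQ ρ M (L ^ 2) T x) ∂μ := integral_mono (i1.sub i2).abs (j1.add j2) hb
    _ = (ε / 3 + 2 * ‖GG M F‖ / A ^ 2 * (2 * (∫ x, QQ ρ M (L₁ ^ 2) T x ∂μ) + 2 * B)) +
        D * ∫ x, QQ ρ M (L ^ 2) T x ∂μ := by
        rw [integral_add j1 j2, integral_const_mul, integral_add (integrable_const _) j5,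
          integral_const_mul, integral_add j3 (integrable_const _), integral_const_mul]
        simp
    _ ≤ (ε / 3 + 2 * ‖GG M F‖ / A ^ 2 * (2 + 2 * B)) + D * (ε / (3 * (D + 1))) := by
        have n1 : 0 ≤ 2 * ‖GG M F‖ / A ^ 2 := by positivity
        have t1 : 2 * (∫ x, QQ ρ M (L₁ ^ 2) T x ∂μ) + 2 * B ≤ 2 + 2 * B := by linarith
        have t2 := mul_le_mul_of_nonneg_left t1 n1
        have t3 := mul_le_mul_of_nonneg_left q1 hD0
        linarith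
    _ ≤ ε := by
        have t1 : D * (ε / (3 * (D + 1))) ≤ ε / 3 := by
          rw [mul_div_assoc', div_le_div_iff₀ (by positivity) (by norm_num)]
          nlinarith
        linarith

/-- **package LIM** -/
theorem t_LIM : S_KW → S_FOUR → S_MS → S_LIM := by
  intro hKW hF hMS c₁ c₂ K s hc hs ρ M h0 h1 _ F ε hε
  obtain ⟨L₀, hL₀⟩ := eventually_atTop.1
    (step1 (c₂ := c₂) (K := K) hMS hc hs h0 h1 M F (show 0 < ε / 2 by positivity))
  refine ⟨L₀, fun L hL => ?_⟩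
  obtain ⟨T₁, hT₁⟩ := eventually_atTop.1 (hL₀ L hL)
  obtain ⟨T₂, hT₂⟩ := step2 (c₁ := c₁) (c₂ := c₂) (K := K) hKW hF hs ρ M (L ^ 2) F
    (show 0 < ε / 2 by positivity)
  refine ⟨max T₁ T₂, fun T hT μ hμ => ?_⟩
  have a1 := hT₁ T ((le_max_left _ _).trans hT) μ hμ
  have a2 := hT₂ T ((le_max_right _ _).trans hT) μ hμ
  have a3 := abs_add_le (∫ x, F (pathR ρ M (T * x)) ∂μ -
    ∫ x, GG M F (vec M (wL ρ M (L ^ 2) (T * x))) ∂μ)
    (∫ x, GG M F (vec M (wL ρ M (L ^ 2) (T * x))) ∂μ - ∫ θ, F (pathT ρ M (L ^ 2) θ) ∂Th)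
  rw [sub_add_sub_cancel] at a3
  linarith

end Pool.Agent.U251.LB
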